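import Pool.Agent.W_MP_1da119_pr.Diverge
import Pool.Agent.W_MP_1da119_pr.Exist

set_option autoImplicit false

open MeasureTheory Filter

namespace Pool.Agent.Results.MP_1da119_pr.AlmostSureDivergence

open Pool.Agent.W_MP_1da119_pr

universe u

/-- There are parameters `8 ≤ a t`, nondecreasing and tending to infinity, for which the random
walk on stairs (forward neighbour proposed with probability `1 / 2 + 4 / a t` at step `t`, backward
neighbour with probability `1 / 2 - 4 / a t`, acceptance probability `π(y) / (π(y) + π(x))`,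
started at `(1, 1)`) tends to infinity almost surely. Such a walk exists, and every such walk, on
every probability space, has this property. -/
theorem result :
    ∃ a : ℕ → ℝ, Monotone a ∧ (∀ t, 8 ≤ a t) ∧ Tendsto a atTop atTop ∧
      (∃ (Ω : Type) (_ : MeasurableSpace Ω) (μ : Measure Ω) (X : ℕ → Ω → ℕ × ℕ),
        IsProbabilityMeasure μ ∧ IsWalk μ (fun t x y => stepProb (1 / 2 + 4 / a t) x y) X) ∧
      ∀ (Ω : Type u) (_ : MeasurableSpace Ω) (μ : Measure Ω) (_ : IsProbabilityMeasure μ)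
        (X : ℕ → Ω → ℕ × ℕ), IsWalk μ (fun t x y => stepProb (1 / 2 + 4 / a t) x y) X →
        ∀ᵐ ω ∂μ, Tendsto (fun t => X t ω) atTop cofinite := by
  obtain ⟨T, hT, hT0, h⟩ := exists_times.{u}
  have h8 : ∀ t, 8 ≤ pars T t := fun t => by
    unfold pars
    have : (0 : ℝ) ≤ phase T (t - 1) := by positivity
    linarith
  refine ⟨pars T, pars_mono hT hT0, h8, pars_tendsto hT hT0, ?_, ?_⟩
  · have hF0 : ∀ (t : ℕ) (x : ℕ × ℕ), 0 ≤ (fun (t : ℕ) (_ : ℕ × ℕ) => 1 / 2 + 4 / pars T t) t x := by
      intro t _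
      have : 0 < pars T t := by linarith [h8 t]
      positivity
    have hF1 : ∀ (t : ℕ) (x : ℕ × ℕ), (fun (t : ℕ) (_ : ℕ × ℕ) => 1 / 2 + 4 / pars T t) t x ≤ 1 :=
      fun t _ => bias_le (phase T (t - 1))
    exact exists_walk _ hF0 hF1
  · intro Ω _ μ _ X hX
    filter_upwards [h Ω _ μ inferInstance X hX] with ω hω
    rw [tendsto_def]
    intro s hs
    have hfin : sᶜ.Finite := hs
    obtain ⟨m, hm⟩ := (hfin.image (fun x : ℕ × ℕ => x.1 + x.2)).bddAbove
    filter_upwards [hω m] with t ht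
    by_contra hcon
    have : (X t ω).1 + (X t ω).2 ≤ m := hm ⟨X t ω, hcon, rfl⟩
    omega

end Pool.Agent.Results.MP_1da119_pr.AlmostSureDivergence
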