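import Pool.Agent.W_MP_1da119_pr.Reversible
import Pool.Agent.W_MP_1da119_pr.Exist

set_option autoImplicit false

open MeasureTheory Filter

namespace Pool.Agent.Results.MP_1da119_pr.LiteralReading

open Pool.Agent.W_MP_1da119_pr

universe u

/-- For the walk that, at step `t`, proposes the forward neighbour of `(j, j)` with probability
`1 / 2 + 4 / a t` and the forward neighbour of `(j + 1, j)` with probability `1 / 2 - 4 / a t`, and
for every sequence `a` with `8 ≤ a t` for `t ≥ 1`, the probability of tending to infinity is `0`.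
Such a walk exists for every such sequence. -/
theorem result (a : ℕ → ℝ) (ha : ∀ t, 1 ≤ t → 8 ≤ a t) :
    (∃ (Ω : Type) (_ : MeasurableSpace Ω) (μ : Measure Ω) (X : ℕ → Ω → ℕ × ℕ),
      IsProbabilityMeasure μ ∧
        IsWalk μ (fun t x y =>
          stepProb (if x.1 = x.2 then 1 / 2 + 4 / a t else 1 / 2 - 4 / a t) x y) X) ∧
    ∀ (Ω : Type u) (_ : MeasurableSpace Ω) (μ : Measure Ω) (_ : IsProbabilityMeasure μ)
      (X : ℕ → Ω → ℕ × ℕ),
      IsWalk μ (fun t x y =>
        stepProb (if x.1 = x.2 then 1 / 2 + 4 / a t else 1 / 2 - 4 / a t) x y) X →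
      μ {ω | Tendsto (fun t => X t ω) atTop cofinite} = 0 := by
  have h0 : ∀ t, 0 ≤ 1 / 2 + 4 / a (t + 1) := by
    intro t
    have := ha (t + 1) (by omega)
    have : 0 < a (t + 1) := by linarith
    positivity
  have h1 : ∀ t, 1 / 2 + 4 / a (t + 1) ≤ 1 := by
    intro t
    have h8 := ha (t + 1) (by omega)
    have : 4 / a (t + 1) ≤ 1 / 2 := by
      rw [div_le_div_iff₀ (by linarith) (by norm_num)]
      linarith
    linarith
  have hlit : ∀ (b : ℕ → ℝ), (fun (t : ℕ) (x y : ℕ × ℕ) =>
      stepProb (if x.1 = x.2 then 1 / 2 + 4 / b t else 1 / 2 - 4 / b t) x y)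
      = fun t x y => stepProb (litProb (1 / 2 + 4 / b t) x) x y := by
    intro b
    funext t x y
    congr 1
    unfold litProb
    split_ifs
    · rfl
    · ring
  constructor
  · set b : ℕ → ℝ := fun t => if t = 0 then 8 else a t with hb
    have hb0 : ∀ t x, 0 ≤ (fun (t : ℕ) (x : ℕ × ℕ) => litProb (1 / 2 + 4 / b t) x) t x := by
      intro t x
      rcases t with _ | t
      · apply litProb_nonneg <;> simp [hb] <;> norm_num
      · apply litProb_nonneg
        · simpa [hb] using h0 t
        · simpa [hb] using h1 t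
    have hb1 : ∀ t x, (fun (t : ℕ) (x : ℕ × ℕ) => litProb (1 / 2 + 4 / b t) x) t x ≤ 1 := by
      intro t x
      rcases t with _ | t
      · apply litProb_le_one <;> simp [hb] <;> norm_num
      · apply litProb_le_one
        · simpa [hb] using h0 t
        · simpa [hb] using h1 t
    obtain ⟨Ω, mΩ, μ, X, hμ, hX⟩ := exists_walk _ hb0 hb1
    refine ⟨Ω, mΩ, μ, X, hμ, ?_⟩
    rw [hlit a]
    refine ⟨hX.measurable, hX.start, ?_⟩
    intro t path y
    have := hX.step t path y
    simpa [hb] using this
  · intro Ω _ μ _ X hX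
    rw [hlit a] at hX
    have := hX.not_tendsto (p := fun t => 1 / 2 + 4 / a t) h0 h1
    rw [ae_iff] at this
    simpa using this

end Pool.Agent.Results.MP_1da119_pr.LiteralReading
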